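import Pool.Agent.QPI.Stmts

/-!
Row B_PAH of the squad QPI.
-/

set_option autoImplicit false

namespace Pool.Agent.QPI.H67

open Finset

variable {S : Type} [CommRing S]

theorem coeff_th (g : PowerSeries S) (a : ℕ) :
    PowerSeries.coeff a (th g) = (a : S) * PowerSeries.coeff a g := by
  unfold th
  rw [PowerSeries.coeff_mk]

theorem th_add (g h : PowerSeries S) : th (g + h) = th g + th h := by
  ext a
  rw [map_add, coeff_th, coeff_th, coeff_th, map_add, mul_add]

theorem th_mul (g h : PowerSeries S) : th (g * h) = th g * h + g * th h := by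
  ext a
  rw [coeff_th, map_add, PowerSeries.coeff_mul, PowerSeries.coeff_mul, PowerSeries.coeff_mul,
    Finset.mul_sum, ← Finset.sum_add_distrib]
  refine Finset.sum_congr rfl fun p hp => ?_
  rw [coeff_th, coeff_th]
  have h1 : p.1 + p.2 = a := Finset.HasAntidiagonal.mem_antidiagonal.1 hp
  have h2 : (a : S) = (p.1 : S) + (p.2 : S) := by rw [← h1]; push_cast; ring
  rw [h2]
  ring

theorem th_pow (H : PowerSeries S) (a : ℕ) :
    H * th (H ^ a) = (a : PowerSeries S) * th H * H ^ a := by
  induction a with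
  | zero =>
    rw [pow_zero, Nat.cast_zero, zero_mul, zero_mul]
    have : th (1 : PowerSeries S) = 0 := by
      ext a
      rw [coeff_th, PowerSeries.coeff_one]
      by_cases h : a = 0
      · subst h; simp
      · rw [if_neg h]; simp
    rw [this, mul_zero]
  | succ a ih =>
    rw [pow_succ, th_mul]
    have : H * (th (H ^ a) * H + H ^ a * th H) = H * th (H ^ a) * H + H * H ^ a * th H := by ring
    rw [this, ih]
    push_cast
    ring

theorem PD_natCast (n : ℕ) : PD (n : PowerSeries S) 0 := by
  intro a ha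
  have : (n : PowerSeries S) = PowerSeries.C (n : S) := (map_natCast PowerSeries.C n).symm
  rw [this, PowerSeries.coeff_C, if_neg ha.ne']

theorem PD_zero (d : ℕ) : PD (0 : PowerSeries S) d := fun a _ => by rw [map_zero]

theorem PD_sum (pdc : PdcStmt) {α : Type} (s : Finset α) (g : α → PowerSeries S) (d : ℕ)
    (h : ∀ i ∈ s, PD (g i) d) : PD (∑ i ∈ s, g i) d := by
  classical
  induction s using Finset.induction_on with
  | empty => rw [Finset.sum_empty]; exact PD_zero d
  | insert i s hi ih =>
    rw [Finset.sum_insert hi]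
    exact (pdc S _ _ d 0).1 (h i (Finset.mem_insert_self _ _))
      (ih fun j hj => h j (Finset.mem_insert_of_mem hj))

theorem PD_prod (pdc : PdcStmt) {α : Type} (s : Finset α) (g : α → PowerSeries S) (d : ℕ)
    (h : ∀ i ∈ s, PD (g i) d) : PD (∏ i ∈ s, g i) (s.card * d) := by
  classical
  induction s using Finset.induction_on with
  | empty =>
    rw [Finset.prod_empty, Finset.card_empty, zero_mul]
    exact (pdc S 0 0 0 0).2.2.2.2.2
  | insert i s hi ih =>
    rw [Finset.prod_insert hi, Finset.card_insert_of_notMem hi]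
    have := (pdc S _ _ d (s.card * d)).2.1 (h i (Finset.mem_insert_self _ _))
      (ih fun j hj => h j (Finset.mem_insert_of_mem hj))
    have e : (s.card + 1) * d = d + s.card * d := by ring
    rw [e]
    exact this

theorem pah (pdc : PdcStmt) : PahStmt := by
  intro S _ m ρ δ f e P hf1 hfd hP a
  set H : PowerSeries S := ∏ j, f j with hH
  have hHd : PD H (m * δ) := by
    have := PD_prod pdc Finset.univ f δ fun j _ => hfd j
    rwa [Finset.card_univ, Fintype.card_fin] at this
  have hinv : ∀ j, f j * PowerSeries.invOfUnit (f j) 1 = 1 := fun j =>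
    PowerSeries.mul_invOfUnit (f j) 1 (by rw [hf1 j]; rfl)
  have hD : PD (H * dlog f e) (m * δ) := by
    unfold dlog
    rw [Finset.mul_sum]
    refine PD_sum pdc _ _ _ fun j _ => ?_
    have h1 : H * ((e j : PowerSeries S) * (th (f j) * PowerSeries.invOfUnit (f j) 1)) =
        (e j : PowerSeries S) * (th (f j) * ∏ i ∈ Finset.univ.erase j, f i) := by
      have h2 : H = f j * ∏ i ∈ Finset.univ.erase j, f i :=
        (Finset.mul_prod_erase Finset.univ f (Finset.mem_univ j)).symm
      rw [h2]
      have h3 : f j * (∏ i ∈ Finset.univ.erase j, f i) *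
          ((e j : PowerSeries S) * (th (f j) * PowerSeries.invOfUnit (f j) 1)) =
          (f j * PowerSeries.invOfUnit (f j) 1) * ((e j : PowerSeries S) * (th (f j) *
            ∏ i ∈ Finset.univ.erase j, f i)) := by ring
      rw [h3, hinv j, one_mul]
    rw [h1]
    have h4 := PD_prod pdc (Finset.univ.erase j) f δ fun i _ => hfd i
    have h5 := (pdc S (th (f j)) (∏ i ∈ Finset.univ.erase j, f i) δ
      ((Finset.univ.erase j).card * δ)).2.1 ((pdc S (f j) 0 δ 0).2.2.1 (hfd j)) h4
    have h6 := (pdc S (e j : PowerSeries S) (th (f j) * ∏ i ∈ Finset.univ.erase j, f i) 0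
      (δ + (Finset.univ.erase j).card * δ)).2.1 (PD_natCast (e j)) h5
    have h7 : 0 + (δ + (Finset.univ.erase j).card * δ) = m * δ := by
      rw [Finset.card_erase_of_mem (Finset.mem_univ j), Finset.card_univ, Fintype.card_fin]
      obtain ⟨k, hk⟩ : ∃ k, m = k + 1 := ⟨m - 1, by have := j.2; omega⟩
      have h8 : m - 1 = k := by omega
      rw [h8, hk]
      ring
    rw [h7] at h6
    exact h6
  induction a with
  | zero =>
    rw [pow_zero, one_mul, zero_mul, add_zero]
    exact hP
  | succ a ih =>
    set Q : PowerSeries S := H ^ a * Pa (dlog f e) P a with hQ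
    have key : H ^ (a + 1) * Pa (dlog f e) P (a + 1) =
        H * th Q + -((a : PowerSeries S) * (th H * Q)) + (H * dlog f e) * Q := by
      show H ^ (a + 1) * (th (Pa (dlog f e) P a) + dlog f e * Pa (dlog f e) P a) = _
      rw [hQ, th_mul]
      have h1 : H * (th (H ^ a) * Pa (dlog f e) P a + H ^ a * th (Pa (dlog f e) P a)) =
          (H * th (H ^ a)) * Pa (dlog f e) P a + H * H ^ a * th (Pa (dlog f e) P a) := by ring
      rw [h1, th_pow]
      ring
    rw [key]
    have d1 := (pdc S H (th Q) (m * δ) (ρ + a * (m * δ))).2.1 hHd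
      ((pdc S Q 0 (ρ + a * (m * δ)) 0).2.2.1 ih)
    have d2 := (pdc S (th H) Q (m * δ) (ρ + a * (m * δ))).2.1
      ((pdc S H 0 (m * δ) 0).2.2.1 hHd) ih
    have d3 := (pdc S (a : PowerSeries S) (th H * Q) 0 (m * δ + (ρ + a * (m * δ)))).2.1
      (PD_natCast a) d2
    have d4 := (pdc S ((a : PowerSeries S) * (th H * Q)) 0
      (0 + (m * δ + (ρ + a * (m * δ)))) 0).2.2.2.1 d3
    have d5 := (pdc S (H * dlog f e) Q (m * δ) (ρ + a * (m * δ))).2.1 hD ih
    have e1 : m * δ + (ρ + a * (m * δ)) = ρ + (a + 1) * (m * δ) := by ring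
    rw [e1] at d1 d5
    rw [zero_add, e1] at d4
    exact (pdc S _ _ _ 0).1 ((pdc S _ _ _ 0).1 d1 d4) d5

end Pool.Agent.QPI.H67
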